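import Pool.Agent.H35.TY.Two
import Pool.Agent.H47.OP.Inst
import Pool.Agent.H35.FS.Asm

set_option autoImplicit false

/-!
# A letter occurring at most three times: assembly
-/

namespace Pool.Agent.H35.TY

open Pool.Agent.H35 (CX.Ctx)
open Pool.Agent.H35.FC (Tiles IsCode)
open Pool.Agent.H35.CX (rc_of_A lc_of_B ncut star_B A_snoc B_cons endA endB revF mem_revF)
open Pool.Agent.H35.FS (deg deg_append deg_cons SDeg SMax st_last)
open Pool.Agent.H72.TY (both_two)
open Pool.Agent.H72.SW (min_rc)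

variable {α : Type} [DecidableEq α]

/-- The weight which counts the letter `y`. -/
def wt (y : α) : α → ℕ := fun x => if x = y then 1 else 0

theorem deg_wt (y : α) (w : List α) : deg (wt y) w = w.count y := by
  induction w with
  | nil => rfl
  | cons x w ih =>
    rw [deg_cons, ih, List.count_cons, wt]
    by_cases h : x = y
    · subst h; simp; omega
    · simp [h]

section
variable {C : Set (List α)} {A B : List α → Set (List α)} {N : List α → List α → Set (List α)}

theorem key [Fintype α] (hdeg : SDeg) (H : CX.Ctx C A B N) {y : α} {c0 : List α} (hc0 : c0 ∈ C)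
    (h3 : c0.count y = 3) (g f u : List α) (hu : u ∈ N g f) :
    ∃ s ∈ A g, ∃ p ∈ B f, 3 + u.count y ≤ s.count y + p.count y := by
  have ht := H.tiles g f
  obtain ⟨s, hs, p, hp, hsp⟩ := hdeg α H.fin.toFinset (H.finA g).toFinset
    (H.finB f).toFinset (H.finN g f).toFinset (wt y) y (by simp [wt])
    (by rw [Set.Finite.coe_toFinset]; exact H.code)
    (by simpa only [Set.Finite.coe_toFinset] using ht) u
    ((Set.Finite.mem_toFinset _).2 hu) c0 ((Set.Finite.mem_toFinset _).2 hc0)
  rw [Set.Finite.mem_toFinset] at hs hp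
  refine ⟨s, hs, p, hp, ?_⟩
  rw [deg_wt, deg_wt, deg_wt, deg_wt, h3] at hsp
  exact hsp

theorem leA (H : CX.Ctx C A B N) {y : α} (h3 : ∀ w ∈ C, w.count y ≤ 3) (g v : List α)
    (hv : v ∈ A (g ++ [y])) : v.count y ≤ 2 := by
  obtain ⟨p, hp⟩ := endA H hv
  have h1 := h3 _ hp
  rw [List.count_append, List.count_cons_self] at h1
  omega

theorem leB (H : CX.Ctx C A B N) {y : α} (h3 : ∀ w ∈ C, w.count y ≤ 3) (f v : List α)
    (hv : v ∈ B (y :: f)) : v.count y ≤ 2 := by
  obtain ⟨p, hp⟩ := endB H hv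
  have h1 := h3 _ hp
  simp only [List.count_append, List.count_cons_self, List.count_nil] at h1
  omega

/-- A left context of degree at most one. -/
theorem caseA [Fintype α] (hdeg : SDeg) (hT : STile) (hT' : STile') (hF : SFin)
    (H : CX.Ctx C A B N) (hne : ∀ g f, (N g f).Nonempty) {y : α} (h3 : ∀ w ∈ C, w.count y ≤ 3)
    {c0 : List α} (hc0 : c0 ∈ C) (hc : c0.count y = 3)
    (hg : ∃ g, ∀ v ∈ A g, v.count y ≤ 1) :
    ∃ S Q : Set (List α), S.Finite ∧ Q.Finite ∧ Tiles C S Q ∅ := by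
  classical
  have hσ : ∃ k, ∃ g, ∀ v ∈ A g, deg (wt y) v ≤ k := by
    obtain ⟨g, hg⟩ := hg
    exact ⟨1, g, fun v hv => by rw [deg_wt]; exact hg v hv⟩
  obtain ⟨g0, hg0⟩ := Nat.find_spec hσ
  have hle : Nat.find hσ ≤ 1 := by
    obtain ⟨g, hg⟩ := hg
    exact Nat.find_min' hσ ⟨g, fun v hv => by rw [deg_wt]; exact hg v hv⟩
  have hrc : [] ∈ A g0 := min_rc H (ω := wt y) (y := y) (by simp [wt])
    (fun m hm => Nat.find_min hσ hm) hg0
  have hA1 : ∀ v ∈ A g0, v.count y ≤ 1 := fun v hv => by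
    have h1 := hg0 v hv
    rw [deg_wt] at h1
    omega
  have hB2 : ∀ f, ∃ v ∈ B f, 2 ≤ v.count y := by
    intro f
    obtain ⟨u, hu⟩ := hne g0 f
    obtain ⟨s, hs, p, hp, h1⟩ := key hdeg H hc0 hc g0 f u hu
    have h2 := hA1 s hs
    exact ⟨p, hp, by omega⟩
  have hyB : ∀ f, [] ∈ B (y :: f) := by
    intro f
    obtain ⟨v, hv, h2⟩ := hB2 (y :: y :: f)
    rcases B_cons H hv with h | ⟨h, -⟩
    · exfalso
      have h4 := leB H h3 f _ h
      rw [List.count_append, List.count_singleton_self] at h4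
      omega
    · exact h
  obtain ⟨Q, hQ, hQT⟩ := two hT hT' hF H hne hrc hyB (fun f u hu hy => by
    obtain ⟨s, hs, p, hp, h1⟩ := key hdeg H hc0 hc g0 (y :: f) u hu
    have h2 := hA1 s hs
    have h4 := leB H h3 f p hp
    have h5 : 0 < u.count y := List.count_pos_iff.2 hy
    omega) (leB H h3)
  exact ⟨A g0, Q, H.finA g0, hQ, hQT⟩

/-- Three times. -/
theorem tiling [Fintype α] (hdeg : SDeg) (hT : STile) (hT' : STile') (hF : SFin)
    (H : CX.Ctx C A B N) {y : α} (h3 : ∀ w ∈ C, w.count y ≤ 3)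
    {c0 : List α} (hc0 : c0 ∈ C) (hc : c0.count y = 3) :
    ∃ S Q : Set (List α), S.Finite ∧ Q.Finite ∧ Tiles C S Q ∅ := by
  classical
  by_cases hne : ∀ g f, (N g f).Nonempty
  · by_cases hg : ∃ g, ∀ v ∈ A g, v.count y ≤ 1
    · exact caseA hdeg hT hT' hF H hne h3 hc0 hc hg
    by_cases hf : ∃ f, ∀ v ∈ B f, v.count y ≤ 1
    · -- the mirror image
      obtain ⟨f, hf⟩ := hf
      obtain ⟨S, Q, hS, hQ, hST⟩ := caseA hdeg hT hT' hF H.rev
        (fun g f => (hne _ _).image _) (y := y)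
        (fun w hw => by
          obtain ⟨v, hv, rfl⟩ := hw
          rw [List.count_reverse]
          exact h3 v hv) (c0 := c0.reverse) ⟨c0, hc0, rfl⟩ (by rw [List.count_reverse]; exact hc)
        ⟨f.reverse, fun v hv => by
          rw [mem_revF, List.reverse_reverse] at hv
          have := hf _ hv
          rwa [List.count_reverse] at this⟩
      exact ⟨_, _, hQ.image _, hS.image _, CX.tiles_rev0 hST⟩
    exfalso
    push Not at hg hf
    have hyA : ∀ g, [] ∈ A (g ++ [y]) := by
      intro g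
      obtain ⟨v, hv, h2⟩ := hg (g ++ [y] ++ [y])
      rcases A_snoc H hv with h | ⟨h, -⟩
      · exfalso
        have h4 := leA H h3 g _ h
        rw [List.count_cons_self] at h4
        omega
      · exact h
    have hyB : ∀ f, [] ∈ B (y :: f) := by
      intro f
      obtain ⟨v, hv, h2⟩ := hf (y :: y :: f)
      rcases B_cons H hv with h | ⟨h, -⟩
      · exfalso
        have h4 := leB H h3 f _ h
        rw [List.count_append, List.count_singleton_self] at h4
        omega
      · exact h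
    obtain ⟨g, f, u, ⟨g1, rfl⟩, ⟨f1, rfl⟩, hu, hu2⟩ := both_two H hne hyA hyB
    obtain ⟨s, hs, p, hp, h1⟩ := key hdeg H hc0 hc _ _ u hu
    have h2 := leA H h3 _ s hs
    have h4 := leB H h3 _ p hp
    omega
  · push Not at hne
    obtain ⟨g, f, h⟩ := hne
    refine ⟨A g, B f, H.finA g, H.finB f, ?_⟩
    rw [← h]
    exact H.tiles g f

end

/-- A finite maximal code in which a letter occurs at most three times in each word, and three
times in one of them. -/
theorem fact [Fintype α] (hMax : SMax) (hdeg : SDeg) (hT : STile) (hT' : STile') (hF : SFin)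
    (C : Set (List α)) (hfin : C.Finite) (hC : IsCode C)
    (hmax : ∀ D : Set (List α), IsCode D → C ⊆ D → D = C) {y : α}
    (h3 : ∀ w ∈ C, w.count y ≤ 3) {c0 : List α} (hc0 : c0 ∈ C) (hc : c0.count y = 3) :
    ∃ S Q : Set (List α), S.Finite ∧ Q.Finite ∧ Tiles C S Q ∅ := by
  have hcomp := hMax α C hC hmax
  obtain ⟨A, B, N, H⟩ := Pool.Agent.H47.OP.exists_ctx hfin hC ⟨c0, hc0⟩ hcomp
  exact tiling hdeg hT hT' hF H h3 hc0 hc

end Pool.Agent.H35.TY
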