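import Pool.Agent.H35.TY.NC
import Pool.Agent.H35.CX.Api

set_option autoImplicit false

/-!
# A letter occurring at most three times: statements
-/

namespace Pool.Agent.H35.TY

open Pool.Agent.H35 (CX.Ctx)
open Pool.Agent.H35.FC (Tiles)

open Classical in
/-- The characteristic series of a set. -/
noncomputable def ind {α : Type} (S : Set (List α)) : NC α := nc fun w => if w ∈ S then 1 else 0

theorem ind_pos {α : Type} {S : Set (List α)} {w : List α} (h : w ∈ S) : ind S w = 1 := if_pos h

theorem ind_neg {α : Type} {S : Set (List α)} {w : List α} (h : w ∉ S) : ind S w = 0 := if_neg h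

theorem ind_cases {α : Type} (S : Set (List α)) (w : List α) : ind S w = 0 ∨ ind S w = 1 := by
  by_cases h : w ∈ S
  · exact Or.inr (ind_pos h)
  · exact Or.inl (ind_neg h)

/-- The words after which the left context `g` is complete. -/
def Xs {α : Type} (A : List α → Set (List α)) (g : List α) : Set (List α) := {z | [] ∈ A (g ++ z)}

/-- The words before which the right context `f` is complete. -/
def Ys {α : Type} (B : List α → Set (List α)) (f : List α) : Set (List α) := {z | [] ∈ B (z ++ f)}

/-- T1 (helper72): the tiling. -/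
def STile : Prop := ∀ (α : Type) (C : Set (List α)) (A B : List α → Set (List α))
  (N : List α → List α → Set (List α)), CX.Ctx C A B N → ∀ g f,
    ind (Xs A g) * ind (B f) = top - ind (N g f)

/-- T4 (helper72): the same on the other side. -/
def STile' : Prop := ∀ (α : Type) (C : Set (List α)) (A B : List α → Set (List α))
  (N : List α → List α → Set (List α)), CX.Ctx C A B N → ∀ g f,
    ind (A g) * ind (Ys B f) = top - ind (N g f)

/-- T7 (helper86): positivity and the end. -/
def SFin : Prop := ∀ (α : Type) [DecidableEq α] (C : Set (List α)) (A B : List α → Set (List α))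
  (N : List α → List α → Set (List α)),
  CX.Ctx C A B N → ∀ (y : α) (g : List α) (P V : NC α) (s1 : List α), [] ∈ A g →
  ind (Xs A g) * P = top →
  (∀ p z, P (p ++ y :: z) = 0 ∨ P (p ++ y :: z) = 1) →
  {w | y ∈ w ∧ P w ≠ 0}.Finite →
  (∀ z, V z = 0 ∨ V z = 1) → V ≠ 0 →
  (∀ p z, ind C (p ++ y :: (z ++ y :: s1)) = P p * V z - (sh (p ++ [y]) P * om * V : NC α) z) →
  ∃ Q : Set (List α), Q.Finite ∧ Tiles C (A g) Q ∅

end Pool.Agent.H35.TY
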