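import Pool.Agent.H35.TY.Asm
import Pool.Agent.H72.TY.Tile
import Pool.Agent.H86.TY.Fin
import Pool.Agent.H86.OG.Til
import Pool.Agent.H86.OG.Twice
import Pool.Agent.H35.FS.Max
import Pool.Agent.H35.FS.Deg
import Pool.Agent.H35.FC.Gf
import Pool.Agent.H35.FC.Tree

set_option autoImplicit false

/-!
# A letter occurring at most three times
-/

namespace Pool.Agent.H35.TY

open Pool.Agent.H35.FC (Tiles IsCode IsPrefixCode)

/-- Every finite maximal code in which some letter occurs at most three times in each word is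
factorizing and commutatively equivalent to a prefix code. -/
theorem three {α : Type} [Fintype α] [DecidableEq α] (C : Finset (List α))
    (hC : IsCode (C : Set (List α)))
    (hmax : ∀ D : Set (List α), IsCode D → (C : Set (List α)) ⊆ D → D = C) {y : α}
    (h3 : ∀ w ∈ C, w.count y ≤ 3) :
    (∃ S P : Set (List α), S.Finite ∧ P.Finite ∧ Tiles (C : Set (List α)) S P ∅) ∧
    ∃ D : Finset (List α), IsPrefixCode (D : Set (List α)) ∧
      ∃ F : List α → List α, Set.BijOn F C D ∧ ∀ w ∈ C, (F w).Perm w := by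
  by_cases h2 : ∀ w ∈ C, w.count y ≤ 2
  · exact H86.OG.assembly H86.OG.tilP H35.FS.maxP H35.FC.gfP H35.FC.treeP
      (H35.FS.degP H35.FC.gfP) C hC hmax fun F G hFG => ⟨y, H86.OG.twice_missing h2 F G hFG⟩
  · push Not at h2
    obtain ⟨c0, hc0, hc⟩ := h2
    have hc3 : c0.count y = 3 := le_antisymm (h3 c0 hc0) hc
    obtain ⟨S, Q, hS, hQ, hT⟩ := fact H35.FS.maxP (H35.FS.degP H35.FC.gfP) H72.TY.sTile
      H72.TY.sTile' H86.TY.sFin (C : Set (List α)) C.finite_toSet hC hmax
      (fun w hw => h3 w (by exact_mod_cast hw)) (c0 := c0) (by exact_mod_cast hc0) hc3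
    exact ⟨⟨S, Q, hS, hQ, hT⟩, H35.FC.of_tiles H35.FC.gfP H35.FC.treeP C hC S Q hS hQ hT⟩

end Pool.Agent.H35.TY
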