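import Pool.Agent.H35.TY.Stm
import Pool.Agent.H72.TY.One

set_option autoImplicit false

/-!
# A letter occurring at most three times: the case of a left context of degree one
-/

namespace Pool.Agent.H35.TY

open Pool.Agent.H35 (CX.Ctx)
open Pool.Agent.H35.FC (Tiles)
open Pool.Agent.H35.CX (rc_of_A lc_of_B ncut star_B)
open Pool.Agent.H72.TY (glue)

variable {α : Type}

/-- Splits of `w z`. -/
theorem mul_append (V W : NC α) (w z : List α) :
    (V * W : NC α) (w ++ z) = (V * (nc fun u => W (u ++ z)) : NC α) w + (sh w V * W : NC α) z -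
      V w * W z := by
  induction w generalizing V with
  | nil =>
    have h1 : sh [] V = V := rfl
    rw [h1, List.nil_append, mul_nil, nc_apply, List.nil_append]
    ring
  | cons x w ih =>
    rw [List.cons_append, mul_cons, ih, mul_cons, nc_apply, nc_apply, List.cons_append]
    have h1 : sh w (nc fun u => V (x :: u)) = sh (x :: w) V := rfl
    rw [h1]
    ring

section
variable {C : Set (List α)} {A B : List α → Set (List α)} {N : List α → List α → Set (List α)}

theorem nil_mem_Ys {f : List α} : [] ∈ Ys B f ↔ [] ∈ B f := by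
  simp [Ys]

theorem sh_Ys (f z : List α) : (nc fun u => ind (Ys B f) (u ++ z)) = ind (Ys B (z ++ f)) := by
  funext u
  rw [nc_apply]
  have h : u ++ z ∈ Ys B f ↔ u ∈ Ys B (z ++ f) := by simp [Ys]
  by_cases h1 : u ++ z ∈ Ys B f
  · rw [ind_pos h1, ind_pos (h.1 h1)]
  · rw [ind_neg h1, ind_neg (fun h2 => h1 (h.2 h2))]

/-- The shift for `N`. -/
theorem shiftN (hT : STile') (H : CX.Ctx C A B N) (g f w z : List α) :
    ind (N g (z ++ f)) w + ind (A g) w * ind (Ys B f) z =
      ind (N g f) (w ++ z) + (sh w (ind (A g)) * ind (Ys B f)) z := by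
  have h1 := congrFun (hT α C A B N H g f) (w ++ z)
  have h2 := congrFun (hT α C A B N H g (z ++ f)) w
  rw [sub_apply] at h1 h2
  rw [mul_append, sh_Ys] at h1
  have h3 : (top : NC α) (w ++ z) = 1 := rfl
  have h4 : (top : NC α) w = 1 := rfl
  rw [h3] at h1
  rw [h4] at h2
  linarith

theorem shiftN' (hT : STile') (H : CX.Ctx C A B N) (g f u z : List α) (y : α) :
    ind (N g (y :: (z ++ f))) u =
      ind (N g f) (u ++ y :: z) + (sh (u ++ [y]) (ind (A g)) * ind (Ys B f)) z := by
  have h1 := shiftN hT H g f u (y :: z)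
  rw [List.cons_append, mul_cons, sh_apply, List.append_nil] at h1
  have h2 : (nc fun v => sh u (ind (A g)) (y :: v)) = sh (u ++ [y]) (ind (A g)) := by
    funext v
    rw [nc_apply, sh_apply, sh_apply, List.append_assoc]
    rfl
  rw [h2] at h1
  linarith

/-- The shift for `B`. -/
theorem shiftB (H : CX.Ctx C A B N) (f v z : List α) :
    ind (B (z ++ f)) v + ind C v * ind (Ys B f) z =
      ind (B f) (v ++ z) + (sh v (ind C) * ind (Ys B f)) z := by
  induction z generalizing v with
  | nil =>
    rw [List.nil_append, List.append_nil, mul_nil, sh_apply, List.append_nil]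
  | cons x z ih =>
    have h1 := ih (v ++ [x])
    rw [mul_cons, sh_apply, List.append_nil]
    have h2 : (nc fun u => sh v (ind C) (x :: u)) = sh (v ++ [x]) (ind C) := by
      funext u
      rw [nc_apply, sh_apply, sh_apply, List.append_assoc]
      rfl
    rw [h2, List.cons_append]
    have h3 : ind (B (x :: (z ++ f))) v =
        ind (B (z ++ f)) (v ++ [x]) + ind C (v ++ [x]) * ind (Ys B f) z := by
      have h4 := H.snB (z ++ f) x v
      by_cases hb : v ++ [x] ∈ B (z ++ f)
      · rw [ind_pos (h4.2 (Or.inl hb)), ind_pos hb]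
        have h5 : ind C (v ++ [x]) * ind (Ys B f) z = 0 := by
          by_cases hc : v ++ [x] ∈ C
          · by_cases hz : z ∈ Ys B f
            · exfalso
              have h6 := star_B H (f := z ++ f) hz (FC.star_of_mem hc) hb
              exact List.append_ne_nil_of_right_ne_nil _ (by simp) h6
            · rw [ind_neg hz, mul_zero]
          · rw [ind_neg hc, zero_mul]
        rw [h5, add_zero]
      · rw [ind_neg hb, zero_add]
        by_cases hc : v ++ [x] ∈ C
        · by_cases hz : z ∈ Ys B f
          · rw [ind_pos hc, ind_pos hz, ind_pos (h4.2 (Or.inr ⟨hz, hc⟩)), one_mul]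
          · rw [ind_neg hz, mul_zero, ind_neg]
            intro h5
            rcases h4.1 h5 with h6 | ⟨h6, -⟩
            · exact hb h6
            · exact hz h6
        · rw [ind_neg hc, zero_mul, ind_neg]
          intro h5
          rcases h4.1 h5 with h6 | ⟨-, h6⟩
          · exact hb h6
          · exact hc h6
    rw [h3]
    rw [List.append_assoc, List.singleton_append] at h1
    linarith

theorem shiftB' (H : CX.Ctx C A B N) (f v z : List α) (y : α) :
    ind (B (y :: (z ++ f))) v =
      ind (B f) (v ++ y :: z) + (sh (v ++ [y]) (ind C) * ind (Ys B f)) z := by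
  have h1 := shiftB H f v (y :: z)
  rw [List.cons_append, mul_cons, sh_apply, List.append_nil] at h1
  have h2 : (nc fun u => sh v (ind C) (y :: u)) = sh (v ++ [y]) (ind C) := by
    funext u
    rw [nc_apply, sh_apply, sh_apply, List.append_assoc]
    rfl
  rw [h2] at h1
  linarith

theorem smul_one_mul (c : ℤ) (W : NC α) (z : List α) :
    ((nc fun v => c * (1 : NC α) v) * W) z = c * W z := by
  have h := conv_smul_left c (1 : NC α) W z
  have h2 : conv (1 : NC α) W z = W z := congrFun (one_mul W) z
  rw [h2] at h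
  exact h

/-- (1), (2) and (3): the series `P`. -/
theorem series (hT : STile) (H : CX.Ctx C A B N) {g0 : List α} (hg : [] ∈ A g0) :
    ∃ P : NC α, ind (Xs A g0) * P = top ∧
      ∀ f, ind (B f) = P - P * om * ind (N g0 f) := by
  have hX : ind (Xs A g0) [] = 1 := ind_pos (by simpa [Xs] using hg)
  have hX0 : ind (Xs A g0) ≠ 0 := by
    intro h
    rw [h, zero_apply] at hX
    exact zero_ne_one hX
  refine ⟨nc (solve (ind (Xs A g0)) top), mul_solve _ _ hX, fun f => ?_⟩
  set P : NC α := nc (solve (ind (Xs A g0)) top) with hP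
  have hXP : ind (Xs A g0) * P = top := mul_solve _ _ hX
  have h1 : ind (Xs A g0) * (ind (B f) - (P - P * om * ind (N g0 f))) = 0 := by
    have h2 : ind (Xs A g0) * (P * om * ind (N g0 f)) = ind (N g0 f) := by
      rw [← mul_assoc, ← mul_assoc, hXP, top_mul_om, one_mul]
    rw [mul_sub, mul_sub, h2, hXP, hT α C A B N H g0 f, sub_self]
  rcases eq_zero_of_mul h1 with h2 | h2
  · exact absurd h2 hX0
  · exact sub_eq_zero.1 h2

/-- The values of `B` after `q y`. -/
theorem value {P : NC α} {f g0 : List α} (hB : ind (B f) = P - P * om * ind (N g0 f)) {y : α}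
    (hN : ∀ u ∈ N g0 f, y ∉ u) (q z : List α) :
    ind (B f) (q ++ y :: z) =
      P (q ++ y :: z) - (sh (q ++ [y]) P * om * ind (N g0 f) : NC α) z + P q * ind (N g0 f) z := by
  have h1 : sh (q ++ [y]) (P * om * ind (N g0 f)) =
      (sh (q ++ [y]) P * om - nc fun z => P q * (1 : NC α) z) * ind (N g0 f) := by
    rw [sh_mul (P * om) (ind (N g0 f)) q y (fun z hz => ind_neg fun h => hN z h hz), sh_mul_om]
  have h2 := congrFun h1 z
  rw [sub_mul, sub_apply, smul_one_mul, sh_apply, List.append_assoc, List.singleton_append] at h2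
  rw [hB, sub_apply, h2]
  ring

end

end Pool.Agent.H35.TY
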