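import Mathlib

set_option autoImplicit false

/-!
# Formal series in non-commuting letters, integer coefficients
-/

namespace Pool.Agent.H35.TY

variable {α : Type}

/-- The convolution product of two functions on words. -/
def conv : (List α → ℤ) → (List α → ℤ) → List α → ℤ
  | V, W, [] => V [] * W []
  | V, W, x :: w => V [] * W (x :: w) + conv (fun u => V (x :: u)) W w

theorem conv_nil (V W : List α → ℤ) : conv V W [] = V [] * W [] := by simp only [conv]

theorem conv_cons (V W : List α → ℤ) (x : α) (w : List α) :
    conv V W (x :: w) = V [] * W (x :: w) + conv (fun u => V (x :: u)) W w := by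
  simp only [conv]

theorem conv_zero_left (W : List α → ℤ) (w : List α) : conv (fun _ => 0) W w = 0 := by
  induction w with
  | nil => simp [conv_nil]
  | cons x w ih => simp [conv_cons, ih]

theorem conv_zero_right (V : List α → ℤ) (w : List α) : conv V (fun _ => 0) w = 0 := by
  induction w generalizing V with
  | nil => simp [conv_nil]
  | cons x w ih => simp [conv_cons, ih]

theorem conv_add_left (U V W : List α → ℤ) (w : List α) :
    conv (fun u => U u + V u) W w = conv U W w + conv V W w := by
  induction w generalizing U V with
  | nil => simp only [conv_nil]; ring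
  | cons x w ih => simp only [conv_cons, ih]; ring

theorem conv_add_right (U V W : List α → ℤ) (w : List α) :
    conv U (fun u => V u + W u) w = conv U V w + conv U W w := by
  induction w generalizing U with
  | nil => simp only [conv_nil]; ring
  | cons x w ih => simp only [conv_cons, ih]; ring

theorem conv_smul_left (c : ℤ) (V W : List α → ℤ) (w : List α) :
    conv (fun u => c * V u) W w = c * conv V W w := by
  induction w generalizing V with
  | nil => simp only [conv_nil]; ring
  | cons x w ih => simp only [conv_cons, ih]; ring

theorem conv_assoc (U V W : List α → ℤ) (w : List α) :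
    conv (conv U V) W w = conv U (conv V W) w := by
  induction w generalizing U with
  | nil => simp only [conv_nil]; ring
  | cons x w ih =>
    have h1 : (fun u => conv U V (x :: u)) =
        fun u => U [] * V (x :: u) + conv (fun u => U (x :: u)) V u := by
      funext u; rw [conv_cons]
    rw [conv_cons, h1, conv_add_left, conv_smul_left, ih, conv_cons U, conv_cons V, conv_nil]
    ring

/-- Formal series. -/
def NC (α : Type) : Type := List α → ℤ

instance : AddCommGroup (NC α) := inferInstanceAs (AddCommGroup (List α → ℤ))

/-- A function as a series. -/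
def nc (f : List α → ℤ) : NC α := f

theorem nc_apply (f : List α → ℤ) (w : List α) : (nc f) w = f w := rfl

theorem add_apply (V W : NC α) (w : List α) : (V + W) w = V w + W w := rfl
theorem sub_apply (V W : NC α) (w : List α) : (V - W) w = V w - W w := rfl
theorem neg_apply (V : NC α) (w : List α) : (-V) w = -V w := rfl
theorem zero_apply (w : List α) : (0 : NC α) w = 0 := rfl

instance : Mul (NC α) := ⟨conv⟩

instance : One (NC α) := ⟨fun w => match w with
  | [] => 1
  | _ :: _ => 0⟩

theorem one_nil : (1 : NC α) [] = 1 := rfl
theorem one_cons (x : α) (w : List α) : (1 : NC α) (x :: w) = 0 := rfl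
theorem mul_nil (V W : NC α) : (V * W) [] = V [] * W [] := conv_nil V W
theorem mul_cons (V W : NC α) (x : α) (w : List α) :
    (V * W) (x :: w) = V [] * W (x :: w) + ((nc fun u => V (x :: u)) * W) w :=
  conv_cons V W x w

theorem one_mul' (V : NC α) : 1 * V = V := by
  funext w
  cases w with
  | nil => rw [mul_nil, one_nil, one_mul]
  | cons x w =>
    rw [mul_cons, one_nil, one_mul]
    have h : ((nc fun u => (1 : NC α) (x :: u)) * V) w = 0 := conv_zero_left V w
    rw [h, add_zero]

theorem mul_one' (V : NC α) : V * 1 = V := by
  funext w
  induction w generalizing V with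
  | nil => rw [mul_nil, one_nil, mul_one]
  | cons x w ih => rw [mul_cons, one_cons, mul_zero, zero_add, ih]; rfl

instance : Ring (NC α) where
  mul_assoc U V W := funext fun w => conv_assoc U V W w
  one_mul := one_mul'
  mul_one := mul_one'
  left_distrib U V W := funext fun w => conv_add_right U V W w
  right_distrib U V W := funext fun w => conv_add_left U V W w
  zero_mul V := funext fun w => conv_zero_left V w
  mul_zero V := funext fun w => conv_zero_right V w
  neg_add_cancel := neg_add_cancel
  zsmul := fun n V => n • V
  nsmul := fun n V => n • V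
  zsmul_zero' := fun V => zero_smul ℤ V
  zsmul_succ' := fun n V => by
    simp only [Nat.succ_eq_add_one, Int.natCast_add, add_smul, Int.natCast_one, one_smul]
  zsmul_neg' := fun n V => by
    rw [← neg_smul]; rfl
  nsmul_zero := fun V => zero_smul ℕ V
  nsmul_succ := fun n V => by rw [add_smul, one_smul]

theorem mul_eq_sum (V W : NC α) (w : List α) :
    (V * W) w = ∑ i ∈ Finset.range (w.length + 1), V (w.take i) * W (w.drop i) := by
  induction w generalizing V with
  | nil => simp [mul_nil]
  | cons x w ih =>
    rw [mul_cons, ih, List.length_cons,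
      Finset.sum_range_succ' (fun i => V ((x :: w).take i) * W ((x :: w).drop i)) (w.length + 1)]
    simp only [List.take_succ_cons, List.drop_succ_cons, List.take_zero, List.drop_zero, nc_apply]
    ring

/-- The right factor vanishes on short words. -/
theorem mul_short (V W : NC α) (w : List α) (hW : ∀ z : List α, z.length < w.length → W z = 0) :
    (V * W) w = V [] * W w := by
  cases w with
  | nil => rw [mul_nil]
  | cons x w =>
    rw [mul_cons, mul_eq_sum]
    rw [Finset.sum_eq_zero, add_zero]
    intro i _
    rw [hW _ (by simp only [List.length_drop, List.length_cons]; omega), mul_zero]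

/-- The value of a product at the shortest words. -/
theorem mul_lead (V W : NC α) (v w : List α) (hV : ∀ z : List α, z.length < v.length → V z = 0)
    (hW : ∀ z : List α, z.length < w.length → W z = 0) : (V * W) (v ++ w) = V v * W w := by
  induction v generalizing V with
  | nil => rw [List.nil_append]; exact mul_short V W w hW
  | cons x v ih =>
    rw [List.cons_append, mul_cons, hV [] (by simp), zero_mul, zero_add]
    exact ih _ fun z hz => hV _ (by simpa using hz)

theorem exists_lead {V : NC α} (h : V ≠ 0) :
    ∃ v, V v ≠ 0 ∧ ∀ z : List α, z.length < v.length → V z = 0 := by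
  have h1 : {v | V v ≠ 0}.Nonempty := by
    by_contra hc
    apply h
    funext v
    by_contra hv
    exact hc ⟨v, hv⟩
  obtain ⟨v, hv, h2⟩ := (InvImage.wf List.length Nat.lt_wfRel.wf).has_min _ h1
  refine ⟨v, hv, fun z hz => ?_⟩
  by_contra hc
  exact h2 z hc hz

/-- There are no zero divisors. -/
theorem eq_zero_of_mul {V W : NC α} (h : V * W = 0) : V = 0 ∨ W = 0 := by
  by_contra hc
  push Not at hc
  obtain ⟨v, hv, hv'⟩ := exists_lead hc.1
  obtain ⟨w, hw, hw'⟩ := exists_lead hc.2
  have h1 := mul_lead V W v w hv' hw'
  rw [h, zero_apply] at h1
  exact mul_ne_zero hv hw h1.symm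

/-- All words. -/
def top : NC α := fun _ => 1

/-- `1 - A`. -/
def om : NC α := fun w => match w with
  | [] => 1
  | [_] => -1
  | _ :: _ :: _ => 0

theorem om_nil : (om : NC α) [] = 1 := rfl
theorem om_one (x : α) : (om : NC α) [x] = -1 := rfl
theorem om_two (x y : α) (w : List α) : (om : NC α) (x :: y :: w) = 0 := rfl

theorem mul_om_nil (V : NC α) : (V * om : NC α) [] = V [] := by rw [mul_nil, om_nil, mul_one]

theorem mul_om_snoc (V : NC α) (w : List α) (x : α) :
    (V * om : NC α) (w ++ [x]) = V (w ++ [x]) - V w := by
  induction w generalizing V with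
  | nil =>
    rw [List.nil_append, mul_cons, om_one, mul_nil, om_nil, nc_apply]
    ring
  | cons z w ih =>
    have h1 : (om : NC α) (z :: w ++ [x]) = 0 := by
      cases w <;> rfl
    rw [List.cons_append] at h1 ⊢
    rw [mul_cons, h1, ih]
    simp only [nc_apply]
    ring

theorem top_mul_om : (top : NC α) * om = 1 := by
  funext w
  rcases List.eq_nil_or_concat w with rfl | ⟨w, x, rfl⟩
  · rw [mul_om_nil]; rfl
  · rw [List.concat_eq_append, mul_om_snoc]
    cases w <;> rfl

/-- The values after a fixed prefix. -/
def sh (q : List α) (V : NC α) : NC α := fun z => V (q ++ z)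

theorem sh_apply (q : List α) (V : NC α) (z : List α) : sh q V z = V (q ++ z) := rfl

theorem sh_mul_om (V : NC α) (q : List α) (y : α) :
    sh (q ++ [y]) (V * om) = sh (q ++ [y]) V * om - nc fun z => V q * (1 : NC α) z := by
  funext z
  rw [sub_apply]
  rcases List.eq_nil_or_concat z with rfl | ⟨z, x, rfl⟩
  · rw [sh_apply, List.append_nil, mul_om_snoc, mul_om_nil, sh_apply, List.append_nil, nc_apply,
      one_nil, mul_one]
  · rw [List.concat_eq_append, mul_om_snoc, sh_apply, ← List.append_assoc, mul_om_snoc, sh_apply,
      sh_apply]
    have h1 : (1 : NC α) (z ++ [x]) = 0 := by cases z <;> rfl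
    rw [nc_apply, h1, mul_zero, sub_zero, List.append_assoc (q ++ [y]) z [x]]

/-- The right factor does not contain words with `y`. -/
theorem sh_mul (V W : NC α) (q : List α) (y : α) (hW : ∀ z, y ∈ z → W z = 0) :
    sh (q ++ [y]) (V * W) = sh (q ++ [y]) V * W := by
  funext z
  rw [sh_apply]
  induction q generalizing V with
  | nil =>
    rw [List.nil_append, List.singleton_append, mul_cons, hW _ (by simp), mul_zero, zero_add]
    rfl
  | cons x q ih =>
    rw [List.cons_append, List.cons_append, mul_cons,
      hW _ (by simp), mul_zero, zero_add, ih]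
    rfl

/-- Division by a series with constant term `1`. -/
noncomputable def solve (V T : NC α) : List α → ℤ
  | [] => T []
  | x :: w => T (x :: w) - ∑ i ∈ Finset.range (w.length + 1), V (x :: w.take i) * solve V T (w.drop i)
termination_by w => w.length
decreasing_by
  simp only [List.length_drop, List.length_cons]
  omega

theorem mul_solve (V T : NC α) (hV : V [] = 1) : V * nc (solve V T) = T := by
  funext w
  cases w with
  | nil =>
    rw [mul_nil, hV, one_mul, nc_apply, solve]
  | cons x w =>
    rw [mul_cons, hV, one_mul, mul_eq_sum, nc_apply, solve]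
    simp only [nc_apply]
    ring

end Pool.Agent.H35.TY
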