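import Pool.Agent.H35.TY.Main

set_option autoImplicit false

/-!
# A letter occurring at most three times: steps (2) to (6)
-/

namespace Pool.Agent.H35.TY

open Pool.Agent.H35 (CX.Ctx)
open Pool.Agent.H35.FC (Tiles)
open Pool.Agent.H35.CX (rc_of_A lc_of_B ncut star_B)
open Pool.Agent.H72.TY (glue)

variable {α : Type} [DecidableEq α]
variable {C : Set (List α)} {A B : List α → Set (List α)} {N : List α → List α → Set (List α)}

/-- `P` vanishes on the words with at least two `y`. -/
theorem vanish (H : CX.Ctx C A B N) (hne : ∀ g f, (N g f).Nonempty) {y : α} {g0 : List α}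
    (hN0 : ∀ f, ∀ u ∈ N g0 (y :: f), y ∉ u)
    (hB2 : ∀ f, ∀ v ∈ B (y :: f), v.count y ≤ 2) {P : NC α}
    (hB : ∀ f, ind (B f) = P - P * om * ind (N g0 f)) (q : List α) (hq : 2 ≤ q.count y) :
    P q = 0 := by
  by_contra hc
  -- the equation
  have e1 : ∀ f, sh (q ++ [y]) P =
      (sh (q ++ [y]) P * om - nc fun v => P q * (1 : NC α) v) * ind (N g0 (y :: f)) := by
    intro f
    funext z
    have h1 := value (hB (y :: f)) (hN0 f) q z
    have h2 : ind (B (y :: f)) (q ++ y :: z) = 0 := by
      apply ind_neg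
      intro h3
      have h4 := hB2 f _ h3
      rw [List.count_append, List.count_cons_self] at h4
      omega
    rw [h2] at h1
    rw [sub_mul, sub_apply, smul_one_mul, sh_apply, List.append_assoc, List.singleton_append]
    linarith
  set W : NC α := sh (q ++ [y]) P * om - nc fun v => P q * (1 : NC α) v with hW
  have hW0 : W ≠ 0 := by
    intro h
    have h1 := e1 []
    rw [h, zero_mul] at h1
    rw [h1, zero_mul, zero_sub] at hW
    have h2 := congrFun hW []
    rw [h, zero_apply, neg_apply, nc_apply, one_nil, mul_one] at h2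
    apply hc
    linarith
  have e2 : ∀ f, ind (N g0 (y :: f)) = ind (N g0 [y]) := by
    intro f
    have h1 : W * (ind (N g0 (y :: f)) - ind (N g0 [y])) = 0 := by
      rw [mul_sub, ← e1 f, ← e1 [], sub_self]
    rcases eq_zero_of_mul h1 with h | h
    · exact absurd h hW0
    · exact sub_eq_zero.1 h
  obtain ⟨u, hu⟩ := hne g0 [y]
  obtain ⟨z, hz⟩ := hne (g0 ++ u ++ [y]) [y]
  have h1 : u ∈ N g0 (y :: (z ++ [y])) := by
    by_contra h
    have h2 := congrFun (e2 (z ++ [y])) u
    rw [ind_neg h, ind_pos hu] at h2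
    exact zero_ne_one h2
  have h2 := glue H h1 hz
  exact hN0 [] _ h2 (by simp)

/-- The letter `y` after a word with `y`. -/
theorem value2 (H : CX.Ctx C A B N) (hne : ∀ g f, (N g f).Nonempty) {y : α} {g0 : List α}
    (hN0 : ∀ f, ∀ u ∈ N g0 (y :: f), y ∉ u)
    (hB2 : ∀ f, ∀ v ∈ B (y :: f), v.count y ≤ 2) {P : NC α}
    (hB : ∀ f, ind (B f) = P - P * om * ind (N g0 f)) (f q z : List α) (hq : y ∈ q) :
    ind (B (y :: f)) (q ++ y :: z) = P q * ind (N g0 (y :: f)) z := by
  have h1 := value (hB (y :: f)) (hN0 f) q z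
  have h0 : sh (q ++ [y]) P = 0 := by
    funext z
    rw [sh_apply, zero_apply]
    apply vanish H hne hN0 hB2 hB
    have : 0 < q.count y := List.count_pos_iff.2 hq
    rw [List.count_append, List.count_append, List.count_singleton_self]
    omega
  have h2 : P (q ++ y :: z) = 0 := by
    have h3 := congrFun h0 z
    rw [sh_apply, zero_apply, List.append_assoc, List.singleton_append] at h3
    exact h3
  rw [h1, h2, h0, zero_mul, zero_mul, zero_apply]
  ring

/-- (5) -/
theorem exists_s (hT' : STile') (H : CX.Ctx C A B N) (hne : ∀ g f, (N g f).Nonempty) {y : α}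
    {g0 : List α} (hN0 : ∀ f, ∀ u ∈ N g0 (y :: f), y ∉ u) :
    ∃ s, s ∉ A g0 ∧ ∃ u, u ++ y :: s ∈ A g0 := by
  by_contra hc
  push Not at hc
  obtain ⟨z, hz⟩ := hne g0 [y]
  obtain ⟨u, hu⟩ := hne g0 (y :: (z ++ [y]))
  have h1 := shiftN' hT' H g0 [y] u z y
  rw [ind_pos hu, ind_neg (fun h => hN0 [] _ h (by simp)), zero_add, mul_eq_sum] at h1
  obtain ⟨i, -, hi⟩ := Finset.exists_ne_zero_of_sum_ne_zero (by rw [← h1]; exact one_ne_zero)
  rw [sh_apply, List.append_assoc, List.singleton_append] at hi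
  have h2 : u ++ y :: z.take i ∈ A g0 := by
    by_contra h
    rw [ind_neg h, zero_mul] at hi
    exact hi rfl
  have h3 : z.drop i ∈ Ys B [y] := by
    by_contra h
    rw [ind_neg h, mul_zero] at hi
    exact hi rfl
  have h4 : z.take i ∈ A g0 := by
    by_contra h
    exact hc _ h _ h2
  exact ncut H (g := g0) (f := [y]) (u1 := z.take i) (u2 := z.drop i)
    (by rw [List.take_append_drop]; exact hz) (rc_of_A H h4) h3

/-- (6) -/
theorem six (hT' : STile') (H : CX.Ctx C A B N) (hne : ∀ g f, (N g f).Nonempty) {y : α}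
    {g0 : List α} (hyB : ∀ f, [] ∈ B (y :: f))
    (hN0 : ∀ f, ∀ u ∈ N g0 (y :: f), y ∉ u)
    (hB2 : ∀ f, ∀ v ∈ B (y :: f), v.count y ≤ 2) {P : NC α}
    (hB : ∀ f, ind (B f) = P - P * om * ind (N g0 f)) (p z s : List α) :
    ind C (p ++ y :: (z ++ y :: s)) = P p * ind (A g0) (z ++ y :: s) -
      (sh (p ++ [y]) P * om * (nc fun u => ind (A g0) (u ++ y :: s)) : NC α) z +
      P (p ++ y :: z) * ind (A g0) s := by
  set T : NC α := sh (p ++ [y]) P * om with hTd
  set D : NC α := nc fun s => ind C (p ++ y :: (z ++ y :: s)) - (P p * ind (A g0) (z ++ y :: s) -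
      (T * (nc fun u => ind (A g0) (u ++ y :: s)) : NC α) z +
      P (p ++ y :: z) * ind (A g0) s) with hD
  have hY : ind (Ys B [y]) [] = 1 := ind_pos (nil_mem_Ys.2 (hyB []))
  have hY0 : ind (Ys B [y]) ≠ 0 := by
    intro h
    rw [h, zero_apply] at hY
    exact zero_ne_one hY
  have key : D * ind (Ys B [y]) = 0 := by
    funext s
    rw [zero_apply, mul_eq_sum]
    -- the two expansions
    have hNs : ∀ u, ind (N g0 (y :: (s ++ [y]))) u =
        ∑ j ∈ Finset.range (s.length + 1),
          ind (A g0) (u ++ y :: s.take j) * ind (Ys B [y]) (s.drop j) := by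
      intro u
      rw [shiftN' hT' H g0 [y] u s y, ind_neg (fun h => hN0 [] _ h (by simp)), zero_add,
        mul_eq_sum]
      refine Finset.sum_congr rfl fun j _ => ?_
      rw [sh_apply, List.append_assoc, List.singleton_append]
    have hBs : ind (B (y :: (s ++ [y]))) (p ++ y :: z) =
        P (p ++ y :: z) * ind (N g0 [y]) s +
        ∑ j ∈ Finset.range (s.length + 1),
          ind C (p ++ y :: (z ++ y :: s.take j)) * ind (Ys B [y]) (s.drop j) := by
      rw [shiftB' H [y] (p ++ y :: z) s y,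
        value2 H hne hN0 hB2 hB [] (p ++ y :: z) s (by simp), mul_eq_sum]
      congr 1
      refine Finset.sum_congr rfl fun j _ => ?_
      rw [sh_apply]
      simp only [List.append_assoc, List.cons_append, List.nil_append]
    have hS : ∑ j ∈ Finset.range (s.length + 1),
        ind (A g0) (s.take j) * ind (Ys B [y]) (s.drop j) = 1 - ind (N g0 [y]) s := by
      have h1 := congrFun (hT' α C A B N H g0 [y]) s
      rw [mul_eq_sum, sub_apply] at h1
      exact h1
    have hval := value (hB (y :: (s ++ [y]))) (hN0 _) p z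
    rw [hBs, hNs z] at hval
    have hTN : (T * ind (N g0 (y :: (s ++ [y]))) : NC α) z =
        ∑ j ∈ Finset.range (s.length + 1),
          (T * (nc fun u => ind (A g0) (u ++ y :: s.take j)) : NC α) z *
            ind (Ys B [y]) (s.drop j) := by
      rw [mul_eq_sum]
      simp only [hNs, mul_eq_sum, nc_apply, Finset.mul_sum, Finset.sum_mul]
      rw [Finset.sum_comm]
      refine Finset.sum_congr rfl fun j _ => Finset.sum_congr rfl fun i _ => ?_
      ring
    rw [← hTd, hTN] at hval
    have hsum : ∀ j, D (s.take j) * ind (Ys B [y]) (s.drop j) =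
        ind C (p ++ y :: (z ++ y :: s.take j)) * ind (Ys B [y]) (s.drop j) -
        P p * (ind (A g0) (z ++ y :: s.take j) * ind (Ys B [y]) (s.drop j)) +
        (T * (nc fun u => ind (A g0) (u ++ y :: s.take j)) : NC α) z *
            ind (Ys B [y]) (s.drop j) -
        P (p ++ y :: z) * (ind (A g0) (s.take j) * ind (Ys B [y]) (s.drop j)) := by
      intro j
      rw [hD, nc_apply]
      ring
    simp only [hsum, Finset.sum_add_distrib, Finset.sum_sub_distrib, ← Finset.mul_sum, hS]
    linarith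
  rcases eq_zero_of_mul key with h | h
  · have h1 := congrFun h s
    rw [hD, nc_apply, zero_apply] at h1
    linarith
  · exact absurd h hY0

/-- (II): a left context of degree one. -/
theorem two (hT : STile) (hT' : STile') (hF : SFin) (H : CX.Ctx C A B N)
    (hne : ∀ g f, (N g f).Nonempty) {y : α} {g0 : List α} (hg : [] ∈ A g0)
    (hyB : ∀ f, [] ∈ B (y :: f)) (hN0 : ∀ f, ∀ u ∈ N g0 (y :: f), y ∉ u)
    (hB2 : ∀ f, ∀ v ∈ B (y :: f), v.count y ≤ 2) :
    ∃ Q : Set (List α), Q.Finite ∧ Tiles C (A g0) Q ∅ := by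
  obtain ⟨P, hXP, hB⟩ := series hT H hg
  obtain ⟨s1, hs1, u1, hu1⟩ := exists_s hT' H hne hN0
  obtain ⟨z1, hz1⟩ := hne g0 [y]
  have hval : ∀ q, y ∈ q → P q = ind (B [y]) (q ++ y :: z1) := by
    intro q hq
    rw [value2 H hne hN0 hB2 hB [] q z1 hq, ind_pos hz1, mul_one]
  refine hF α C A B N H y g0 P (nc fun u => ind (A g0) (u ++ y :: s1)) s1 hg hXP ?_ ?_ ?_ ?_ ?_
  · intro p z
    rw [hval _ (by simp)]
    exact ind_cases _ _
  · have h1 : {w | y ∈ w ∧ P w ≠ 0} ⊆ (fun w => w ++ y :: z1) ⁻¹' B [y] := by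
      rintro w ⟨hw, hP⟩
      rw [hval w hw] at hP
      by_contra hc
      exact hP (ind_neg hc)
    exact Set.Finite.subset ((H.finB [y]).preimage
      (fun a _ b _ hab => List.append_cancel_right hab)) h1
  · intro z
    exact ind_cases _ _
  · intro h
    have h1 := congrFun h u1
    rw [nc_apply, zero_apply, ind_pos hu1] at h1
    exact one_ne_zero h1
  · intro p z
    rw [six hT' H hne hyB hN0 hB2 hB p z s1, ind_neg hs1, mul_zero, add_zero, nc_apply]

end Pool.Agent.H35.TY
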